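import Pool.Agent.H70.Cz

namespace Pool.Agent.Results.MP_dbb1e7_al.Counterexample

open Pool.Agent.H70.Cz

theorem result : ∃ (K : Type) (_ : Field K) (A : Type) (_ : Ring A) (_ : Algebra K A),
    Algebra.FiniteType K A ∧ Algebra.IsCentral K A ∧ (⊥ : Subalgebra K A) ≠ ⊤ ∧
      ∀ a ∉ Subalgebra.center K A,
        (∀ x ∈ Subalgebra.centralizer K {a}, ∀ y ∈ Subalgebra.centralizer K {a}, x * y = y * x) ∧
          ¬ IsNoetherianRing (Subalgebra.centralizer K {a}) :=
  ⟨ℚ, inferInstance, A, inferInstance, inferInstance, fg, central, ne, fun _ ha => ⟨cm ha, notN ha⟩⟩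

end Pool.Agent.Results.MP_dbb1e7_al.Counterexample
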